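import Pool.Agent.Helper78.HP.Final

/-!
# Reverse altitudes of triangles in Hilbert planes

Full (positive) answer to Q1 of MP_df1f63_gt: a Hilbert plane in which the reverse altitudes of
every triangle form a pencil is a model of the hyperbolic plane, i.e. its boundary is an ellipse.

No smoothness of the boundary is assumed. Where the boundary has corners a vertex of a triangle can
have several reverse altitudes; the hypothesis below is only imposed on the triangles for which each
of the three reverse altitudes is unique, so it follows from every reading of the hypothesis in
the question.

Outline of the proof. Let `P(l)` be the pole of a line `l` that meets `K` in a chord with smooth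
endpoints: the intersection of the tangents at the endpoints. The reverse altitude from `A` is
unique and equals the line `A P(BC)`. Writing `B(x, y)` for the pairing of the line `y` with the
pole of the line `x`, concurrency of the three lines for the triangle with sides `x, y, z` is the
relation `B(x,y) B(y,z) B(z,x) = B(x,z) B(z,y) B(y,x)`. It makes `B` symmetric after rescaling the
poles, so that the pole map is a polarity, and the boundary lies on a conic.
-/

open scoped Affine

namespace Pool.Agent.Results.MP_df1f63_gt.ReverseAltitudes

open Pool.Agent.Helper78.HP

/-- If, in the Hilbert plane on `K`, the reverse altitudes of every triangle (whose three reverse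
altitudes are unique) form a pencil, then the boundary of `K` is an ellipse. -/
theorem result (K : Set Plane) (hK : IsHilbertDomain K)
    (h : ∀ A ∈ K, ∀ B ∈ K, ∀ C ∈ K, ¬ Collinear ℝ {A, B, C} →
      ∀ mA mB mC : AffineSubspace ℝ Plane,
        IsTheReverseAltitude K A B C mA → IsTheReverseAltitude K B C A mB →
        IsTheReverseAltitude K C A B mC → IsPencil mA mB mC) :
    IsEllipse (frontier K) :=
  main hK h

end Pool.Agent.Results.MP_df1f63_gt.ReverseAltitudes
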